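import Pool.Agent.Helper24.MinZ.Transfer

/-!
# The topologies of Q1 come from non-weakenable Polish topological fields

A Hausdorff non-weakenable ring topology on `ℤ` without closed ideals other than `0` and `ℤ` is
the same thing as the restriction to `ℤ` of a non-weakenable ring topology of a Polish, complete
topological field `K` of characteristic zero in which `ℤ` is dense; such a `K` is never locally
bounded and has no proper open additive subgroup.
-/

open Topology Filter Set

set_option linter.style.haveILetI false
set_option linter.unusedSectionVars false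

namespace Pool.Agent.Results.MP_e4e71e_al.DenseField

open Pool.Agent.Helper24.MinZ

/-- No Hausdorff ring topology on `R` is strictly coarser than `t`. -/
def NonWeakenable (R : Type) [Ring R] (t : TopologicalSpace R) : Prop :=
  ∀ s : RingTopology R, @T2Space R s.toTopologicalSpace → t ≤ s.toTopologicalSpace →
    s.toTopologicalSpace = t

/-- Some neighbourhood `V` of `0` is bounded: for every neighbourhood `U` of `0` there is a
neighbourhood `W` of `0` with `W V ⊆ U`. -/
def LocallyBounded (K : Type) [Field K] [TopologicalSpace K] : Prop :=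
  ∃ V ∈ 𝓝 (0 : K), ∀ U ∈ 𝓝 (0 : K), ∃ W ∈ 𝓝 (0 : K), ∀ w ∈ W, ∀ v ∈ V, w * v ∈ U

theorem open_subgroup_eq_top {K : Type} [Field K] [TopologicalSpace K] [IsTopologicalRing K]
    [T2Space K] [CharZero K] (hd : DenseRange (Int.cast : ℤ → K)) (t : RingTopology ℤ)
    (ht : t.toTopologicalSpace = TopologicalSpace.induced (Int.cast : ℤ → K) inferInstance)
    (hcl : ∀ I : Ideal ℤ, @IsClosed ℤ t.toTopologicalSpace (I : Set ℤ) → I = ⊥ ∨ I = ⊤)
    (H : AddSubgroup K) (hH : IsOpen (H : Set K)) : H = ⊤ := by
  have hHc : IsClosed (H : Set K) := AddSubgroup.isClosed_of_isOpen H hH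
  let I : Ideal ℤ :=
  { carrier := {n : ℤ | (n : K) ∈ H}
    add_mem' := by
      intro a b ha hb
      simp only [mem_ofPred_eq, Int.cast_add] at *
      exact H.add_mem ha hb
    zero_mem' := by simp [H.zero_mem]
    smul_mem' := by
      intro c x hx
      simp only [mem_ofPred_eq, smul_eq_mul, Int.cast_mul] at *
      have := H.zsmul_mem hx c
      rwa [zsmul_eq_mul] at this }
  have hI : @IsClosed ℤ t.toTopologicalSpace (I : Set ℤ) := by
    rw [ht, isClosed_induced_iff]
    exact ⟨H, hHc, rfl⟩
  rcases hcl I hI with h1 | h1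
  · exfalso
    obtain ⟨n, hn2, hn⟩ := exists_int_mem hd (hH.mem_nhds H.zero_mem)
    have h2 : (n : ℤ) ∈ I := by
      change ((n : ℤ) : K) ∈ H
      rw [Int.cast_natCast]
      exact hn
    rw [h1, Ideal.mem_bot] at h2
    omega
  · rw [eq_top_iff]
    intro x _
    refine hd.induction_on (p := fun x => x ∈ H) x hHc fun z => ?_
    have : z ∈ I := by rw [h1]; trivial
    exact this

theorem result : ∀ t : RingTopology ℤ,
    ((@T2Space ℤ t.toTopologicalSpace) ∧
      (∀ s : RingTopology ℤ, @T2Space ℤ s.toTopologicalSpace →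
        t.toTopologicalSpace ≤ s.toTopologicalSpace → s = t) ∧
      (∀ I : Ideal ℤ, @IsClosed ℤ t.toTopologicalSpace (I : Set ℤ) → I = ⊥ ∨ I = ⊤)) ↔
    ∃ (K : Type) (_ : Field K) (τ : TopologicalSpace K) (_ : IsTopologicalDivisionRing K),
      PolishSpace K ∧ @CompleteSpace K (IsTopologicalAddGroup.rightUniformSpace K) ∧
      CharZero K ∧ DenseRange (Int.cast : ℤ → K) ∧
      t.toTopologicalSpace = TopologicalSpace.induced (Int.cast : ℤ → K) τ ∧
      NonWeakenable K τ ∧ ¬ LocallyBounded K ∧
      ∀ H : AddSubgroup K, IsOpen (H : Set K) → H = ⊤ := by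
  intro t
  constructor
  · rintro ⟨hT2, hmin, hcl⟩
    letI tZ : TopologicalSpace ℤ := t.toTopologicalSpace
    haveI hZr : @IsTopologicalRing ℤ tZ _ := t.toIsTopologicalRing
    haveI : @T2Space ℤ tZ := hT2
    haveI hZg : @IsTopologicalAddGroup ℤ tZ _ := inferInstance
    letI uZ : UniformSpace ℤ := @IsTopologicalAddGroup.rightUniformSpace ℤ _ tZ hZg
    haveI hug : @IsUniformAddGroup ℤ uZ _ := @isUniformAddGroup_of_addCommGroup ℤ _ tZ hZg
    obtain ⟨K, F, uK, hugK, f, hdiv, hpol, hcomp, hdense, hind, hminK⟩ :=
      @exists_field ℤ _ uZ hug hZr hT2 _ _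
        (by
          intro s hs hle
          have := hmin s hs hle
          rw [this]
          rfl) hcl
    have hf : (f : ℤ → K) = Int.cast := by
      funext n
      exact eq_intCast f n
    have hinj : Function.Injective f := (@IsInducing.injective _ _ _ _ _ _ hind)
    have hchar : CharZero K := by
      refine ⟨fun a b hab => ?_⟩
      have h1 : f (a : ℤ) = f (b : ℤ) := by
        rw [hf]
        simpa using hab
      exact_mod_cast hinj h1
    rw [hf] at hdense hind
    have ht : t.toTopologicalSpace = TopologicalSpace.induced (Int.cast : ℤ → K) inferInstance :=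
      hind.eq_induced
    refine ⟨K, F, inferInstance, hdiv, hpol, ?_, hchar, hdense, ht, hminK,
      not_locally_bounded hdense, open_subgroup_eq_top hdense t ht hcl⟩
    rw [IsUniformAddGroup.rightUniformSpace_eq]
    exact hcomp
  · rintro ⟨K, F, τ, hdiv, hpol, -, hchar, hdense, ht, hminK, -, -⟩
    letI tZ : TopologicalSpace ℤ := t.toTopologicalSpace
    haveI hZr : @IsTopologicalRing ℤ tZ _ := t.toIsTopologicalRing
    have hind : @IsInducing ℤ K tZ τ (Int.castRingHom K) := ⟨ht⟩
    have hT2 : @T2Space ℤ tZ := by
      refine T2Space.of_injective_continuous (f := (Int.cast : ℤ → K)) Int.cast_injective ?_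
      exact hind.continuous
    refine ⟨hT2, ?_, ?_⟩
    · intro s hs hle
      have h1 := @min_restrict ℤ K _ tZ hZr _ F τ _ (Int.castRingHom K) hind hdense hminK s hs hle
      exact RingTopology.toTopologicalSpace_injective h1
    · intro I hI
      by_cases hI0 : I = ⊥
      · exact Or.inl hI0
      right
      obtain ⟨n, hn, hn0⟩ := Submodule.exists_mem_ne_zero_of_ne_bot hI0
      rw [Ideal.eq_top_iff_one]
      have h1 : (1 : ℤ) ∈ @closure ℤ tZ (I : Set ℤ) := by
        have h2 : ((1 : ℤ) : K) ∈ closure ((Int.cast : ℤ → K) '' (I : Set ℤ)) := by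
          have h3 : ∀ x : K, (n : K) * x ∈ closure ((Int.cast : ℤ → K) '' (I : Set ℤ)) := by
            intro x
            refine hdense.induction_on x ?_ fun z => ?_
            · exact isClosed_closure.preimage (continuous_const_mul _)
            · refine subset_closure ⟨n * z, I.mul_mem_right z hn, ?_⟩
              push_cast
              ring
          have h4 := h3 ((n : K)⁻¹)
          have hn0' : (n : K) ≠ 0 := by exact_mod_cast hn0
          rw [mul_inv_cancel₀ hn0'] at h4
          simpa using h4
        have h5 := (@closure_induced ℤ K τ (Int.cast : ℤ → K) 1 (I : Set ℤ)).2 h2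
        rwa [← ht] at h5
      rwa [hI.closure_eq] at h1

end Pool.Agent.Results.MP_e4e71e_al.DenseField
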